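import Pool.Agent.Helper60.GUM.St

/-!
Project GUM (MP_0bd1d1_al), module DEC: decomposition into Heisenberg weight spaces
-/

set_option autoImplicit false

namespace Pool.Agent.Helper99.GUM

open Module _root_.OG _root_.GUM

variable {k F X : Type*} [Field k] [Field F] [Algebra k F] [AddCommGroup X] [Module F X]
  {σ : F ≃ₐ[k] F} {B : HForm σ X}

private theorem pz {Y : Submodule F X} {p p' : X} (v : ↥(pp B Y p p')) : B.f (v : X) p = 0 := by
  have h : (v : X) ∈ pp B Y p p' := v.2
  rw [_root_.GUM.mem_pp] at h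
  exact h.2.1

private theorem eV_mul {Y : Submodule F X} {p p' : X} (h : HP B Y p p')
    (v w : ↥(pp B Y p p')) (c d : F) :
    eV h v c * eV h w d = eV h (v + w) (c + d - B.f w.1 v.1) := by
  ext x
  exact hL_comp B p (v : X) (w : X) c d h.q1 (pz v) (pz w) x

private theorem adm_mul {v w : X} {c d : F} (hv : Adm B v c) (hw : Adm B w d) :
    Adm B (v + w) (c + d - B.f w v) := by
  unfold Adm at hv hw ⊢
  rw [B.add, B.add_r, B.add_r, map_sub, map_add, ← B.sym w v]
  linear_combination hv + hw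

private theorem eV_zero_mem {Y : Submodule F X} {p p' : X} (h : HP B Y p p') (c : F)
    (hc : c + σ c = 0) : eV h (0 : ↥(pp B Y p p')) c ∈ Tg B p := by
  refine ⟨c, hc, fun x => ?_⟩
  have e : eV h (0 : ↥(pp B Y p p')) c x
      = x + B.f x p • (0 : X) - B.f x 0 • p + (c * B.f x p) • p := hL_apply B p 0 c x
  rw [e, smul_zero, B.zero_r, zero_smul, add_zero, sub_zero]

variable {R K : Type*} [Field K] [CommRing R] [Algebra R K]

private theorem indep {Y : Submodule F X} {p p' : X} (h : HP B Y p p') {f : Submodule F X → K}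
    (hf : f ∈ IT R K B p) (v : ↥(pp B Y p p')) {c d : F} (hc : Adm B v.1 c) (hd : Adm B v.1 d) :
    act (eV h v c) f = act (eV h v d) f := by
  have h1 : eV h v c = eV h v d * eV h 0 (c - d) := by
    rw [eV_mul, add_zero]
    congr 1
    rw [Submodule.coe_zero, B.zero_l]
    ring
  have h2 : (c - d) + σ (c - d) = 0 := by
    unfold Adm at hc hd
    rw [map_sub]
    linear_combination hc - hd
  rw [h1, act_mul, hf _ (eV_zero_mem h _ h2)]

/-- Module DEC. -/
theorem hDec [Finite F] [IsDomain R] [FiniteDimensional F X] (hH : StHyp B) (χ : AddChar F R)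
    (hχ : ∃ c, χ c ≠ 1) (hu : IsUnit ((Nat.card F : ℕ) : R)) : StDec R K B χ := by
  classical
  intro Y p p' h M hND hM hst f hf
  have hfinX : Finite X := Module.finite_of_finite F
  have : Fintype ↥(pp B Y p p') := Fintype.ofFinite _
  choose c hc using fun v : ↥(pp B Y p p') => hH.adm v.1
  have hfI := hM hf
  have hcard : IsUnit ((Nat.card ↥(pp B Y p p') : ℕ) : R) := by
    rw [Module.natCard_eq_pow_finrank (K := F), Nat.cast_pow]
    exact hu.pow _
  obtain ⟨u, hu'⟩ := hcard
  set g : ↥(pp B Y p p') → (Submodule F X → K) :=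
    fun y => ∑ v : ↥(pp B Y p p'), χ (-(B.f v.1 y.1)) • act (eV h v (c v)) f with hg
  have hgW : ∀ y, g y ∈ M ⊓ WU K h χ y.1 := by
    intro y
    constructor
    · exact Submodule.sum_mem _ (fun v _ => Submodule.smul_mem _ _ (hst v (c v) (hc v) f hf))
    · intro w d hd
      have h1 : act (eV h w d) (g y)
          = ∑ v : ↥(pp B Y p p'), χ (-(B.f v.1 y.1)) • act (eV h (w + v) (c (w + v))) f := by
        rw [← actL_apply (R := R), hg, map_sum]
        refine Finset.sum_congr rfl (fun v _ => ?_)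
        rw [map_smul, actL_apply, ← act_mul, eV_mul]
        congr 1
        exact indep h hfI _ (adm_mul hd (hc v)) (hc _)
      rw [h1, hg, Finset.smul_sum]
      refine Fintype.sum_equiv (Equiv.addLeft w) _ _ (fun v => ?_)
      have h2 : χ (-(B.f v.1 y.1)) = χ (B.f w.1 y.1) * χ (-(B.f (w + v : ↥(pp B Y p p')).1 y.1)) := by
        rw [← AddChar.map_add_eq_mul, Submodule.coe_add, B.add]
        congr 1
        ring
      rw [Equiv.coe_addLeft, smul_smul, ← h2]
  have hsum : ∑ y : ↥(pp B Y p p'), g y = (Nat.card ↥(pp B Y p p') : R) • f := by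
    rw [hg, Finset.sum_comm]
    have hv : ∀ v : ↥(pp B Y p p'), v ≠ 0 → ∑ y : ↥(pp B Y p p'), χ (-(B.f v.1 y.1)) = 0 := by
      intro v hv
      obtain ⟨a, ha⟩ := hχ
      obtain ⟨y₁, hy₁, hne⟩ := hH.nd Y p p' h hND v.1 v.2 (fun e => hv (Subtype.ext e))
      obtain ⟨b, hb⟩ := σ.surjective (-a / B.f v.1 y₁)
      have h0 : B.f v.1 (b • (⟨y₁, hy₁⟩ : ↥(pp B Y p p')) : ↥(pp B Y p p')).1 = -a := by
        rw [Submodule.coe_smul, B.smul_r, hb, div_mul_cancel₀ _ hne]
      set y₀ : ↥(pp B Y p p') := b • (⟨y₁, hy₁⟩ : ↥(pp B Y p p')) with hy₀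
      have h1 : ∑ y : ↥(pp B Y p p'), χ (-(B.f v.1 y.1))
          = ∑ y : ↥(pp B Y p p'), χ (-(B.f v.1 y₀.1)) * χ (-(B.f v.1 y.1)) := by
        refine (Fintype.sum_equiv (Equiv.addLeft y₀) _ _ (fun y => ?_)).symm
        rw [Equiv.coe_addLeft, ← AddChar.map_add_eq_mul, Submodule.coe_add, B.add_r, neg_add]
      rw [← Finset.mul_sum, h0, neg_neg] at h1
      have h2 : (χ a - 1) * ∑ y : ↥(pp B Y p p'), χ (-(B.f v.1 y.1)) = 0 := by
        rw [sub_mul, one_mul, ← h1, sub_self]
      rcases mul_eq_zero.1 h2 with h3 | h3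
      · exact absurd (sub_eq_zero.1 h3) ha
      · exact h3
    rw [Finset.sum_eq_single (0 : ↥(pp B Y p p'))]
    · have hc0 : c 0 + σ (c 0) = 0 := by
        have := hc 0
        unfold Adm at this
        rwa [Submodule.coe_zero, B.zero_l, add_zero] at this
      simp only [Submodule.coe_zero, B.zero_l, neg_zero, AddChar.map_zero_eq_one, one_smul,
        Finset.sum_const, Finset.card_univ]
      rw [hfI _ (eV_zero_mem h _ hc0), Nat.card_eq_fintype_card, Nat.cast_smul_eq_nsmul]
    · intro v _ hv0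
      rw [← Finset.sum_smul, hv v hv0, zero_smul]
    · intro h
      exact absurd (Finset.mem_univ _) h
  have hfin : f = (↑u⁻¹ : R) • ∑ y : ↥(pp B Y p p'), g y := by
    rw [hsum, ← hu', smul_smul, Units.inv_mul, one_smul]
  rw [hfin]
  refine Submodule.smul_mem _ _ (Submodule.sum_mem _ (fun y _ => ?_))
  exact Submodule.mem_iSup_of_mem y (hgW y)

end Pool.Agent.Helper99.GUM
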